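import Pool.Agent.ZPU.Stmts

/-!
# ZPU, row FML: formal facts (author helper81)
-/

set_option autoImplicit false

open Polynomial Pool.Agent.ZPT Pool.Agent.ZP3

namespace Pool.Agent.ZPU.H81

theorem der_pow {R : Type} [CommRing R] (T : R[X]) (s : ℕ) :
    T * derivative (T ^ s) = (s : R[X]) * T ^ s * derivative T := by
  rw [Polynomial.derivative_pow]
  cases s with
  | zero => simp
  | succ n =>
    rw [Nat.add_sub_cancel, pow_succ]
    simp only [Polynomial.C_eq_natCast]
    ring

theorem fml : FMLStmt := by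
  refine ⟨?_, ?_, ?_, ?_, ?_, ?_⟩
  · intro R _ m T₁ T₂ h
    obtain ⟨S, hS⟩ := h
    have e : wr T₁ T₂ = X ^ (m - 1) * ((m : R[X]) * S * T₂) +
        X ^ m * (derivative S * T₂ - S * derivative T₂) := by
      have h1 : T₁ = T₂ + X ^ m * S := by rw [← hS]; ring
      rw [wr, h1, Polynomial.derivative_add, Polynomial.derivative_mul,
        Polynomial.derivative_X_pow]
      simp only [Polynomial.C_eq_natCast]
      ring
    rw [e]
    exact dvd_add (dvd_mul_right _ _) (((pow_dvd_pow X (Nat.sub_le m 1))).mul_right _)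
  · intro k _ m U T hU h
    exact (Polynomial.prime_X (R := k)).pow_dvd_of_dvd_mul_left m
      (fun hd => hU (Polynomial.X_dvd_iff.1 hd)) h
  · intro k _ m T h hd
    exact Polynomial.eq_zero_of_dvd_of_natDegree_lt h (by rw [Polynomial.natDegree_X_pow]; exact hd)
  · intro R _ c₁ c₂ s A₁ B₁ A₂ B₂
    have hA := der_pow A₁ s
    have hB := der_pow B₁ s
    rw [wr, wr, wr]
    simp only [Polynomial.derivative_mul, Polynomial.derivative_C, zero_mul, zero_add]
    generalize derivative (A₁ ^ s) = a at hA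
    generalize derivative (B₁ ^ s) = b at hB
    rw [C_mul, mul_pow]
    linear_combination (A₁ * C c₁ * A₂ * C c₂ * B₂ * A₁ ^ s) * hB -
      (B₁ * C c₁ * A₂ * B₁ ^ s * C c₂ * B₂) * hA
  · intro R _ c₁ c₂ e s A B w₁ w₂
    have hA := der_pow A s
    have hB := der_pow B s
    have h1 := der_pow w₁ e
    have h2 := der_pow w₂ e
    rw [wr, wr, wr]
    simp only [Polynomial.derivative_mul, Polynomial.derivative_C, zero_mul, zero_add]
    generalize derivative (A ^ s) = a at hA
    generalize derivative (B ^ s) = b at hB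
    generalize derivative (w₁ ^ e) = u at h1
    generalize derivative (w₂ ^ e) = v at h2
    rw [C_mul, mul_pow, mul_pow]
    linear_combination (w₁ * A * B * C c₁ * B ^ s * C c₂ * w₁ ^ e * A ^ s) * h2 +
      (w₁ * w₂ * A * C c₁ * w₂ ^ e * C c₂ * w₁ ^ e * A ^ s) * hB -
      (w₂ * A * B * C c₁ * w₂ ^ e * B ^ s * C c₂ * A ^ s) * h1 -
      (w₁ * w₂ * B * C c₁ * w₂ ^ e * B ^ s * C c₂ * w₁ ^ e) * hA
  · intro R _ a b A B hA hB
    rw [wr]
    refine (Polynomial.natDegree_sub_le _ _).trans (max_le ?_ ?_)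
    · refine Polynomial.natDegree_mul_le.trans ?_
      have := Polynomial.natDegree_derivative_le A
      omega
    · refine Polynomial.natDegree_mul_le.trans ?_
      have := Polynomial.natDegree_derivative_le B
      omega

end Pool.Agent.ZPU.H81
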