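import Pool.Agent.ZPU.StmtsB

/-!
# ZPU, row TCA: Tate parameters of `l f / g` (author helper81)
-/

set_option autoImplicit false

open Polynomial Pool.Agent.ZPT Pool.Agent.ZP3

namespace Pool.Agent.ZPU.H81

/-- a `p`-integral rational number is near an integer -/
theorem near_int (p : ℕ) [Fact p.Prime] (n : ℕ) (a : ℚ) (ha : padicNorm p a ≤ 1) :
    ∃ c : ℤ, ((padicNorm p (a - c) : ℚ) : ℝ) ≤ ((p : ℝ)⁻¹) ^ n := by
  have hx : ‖((a : ℚ) : ℚ_[p])‖ ≤ 1 := by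
    rw [Padic.eq_padicNorm]
    exact_mod_cast ha
  obtain ⟨x, hxa⟩ : ∃ x : ℤ_[p], (x : ℚ_[p]) = (a : ℚ_[p]) := ⟨⟨(a : ℚ_[p]), hx⟩, rfl⟩
  have h := PadicInt.appr_spec n x
  rw [← PadicInt.norm_le_pow_iff_mem_span_pow] at h
  refine ⟨(x.appr n : ℤ), ?_⟩
  rw [← Padic.eq_padicNorm]
  rw [PadicInt.norm_def] at h
  have h3 : ((x - ((x.appr n : ℕ) : ℤ_[p]) : ℤ_[p]) : ℚ_[p]) =
      ((a - ((x.appr n : ℤ) : ℚ) : ℚ) : ℚ_[p]) := by
    rw [PadicInt.coe_sub, PadicInt.coe_natCast, hxa]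
    push_cast
    rfl
  rw [h3] at h
  refine h.trans (le_of_eq ?_)
  rw [zpow_neg, zpow_natCast, inv_pow]

section ultra

variable {K : Type} [NormedField K] [IsUltrametricDist K]

theorem add_le {a b : K} {C : ℝ} (ha : ‖a‖ ≤ C) (hb : ‖b‖ ≤ C) : ‖a + b‖ ≤ C :=
  (IsUltrametricDist.norm_add_le_max _ _).trans (max_le ha hb)

theorem sub_le {a b : K} {C : ℝ} (ha : ‖a‖ ≤ C) (hb : ‖b‖ ≤ C) : ‖a - b‖ ≤ C := by
  rw [sub_eq_add_neg]
  exact add_le ha (by rw [norm_neg]; exact hb)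

end ultra

theorem tca (hTAT : TATStmt) : TCAStmt := by
  intro U hU p hp h5 K _ _ _ _ hext l hl
  haveI : Fact p.Prime := ⟨hp⟩
  obtain ⟨hu1, hq⟩ := hTAT U hU p hp h5 K hext
  generalize hu : PowerSeries.coeff 1 U = u at hu1 hq
  -- norms
  have hp1 : (1 : ℝ) < p := by exact_mod_cast hp.one_lt
  have hw0 : (0 : ℝ) < (p : ℝ)⁻¹ := inv_pos.2 (by linarith)
  have hw1 : (p : ℝ)⁻¹ ≤ 1 := inv_le_one_of_one_le₀ hp1.le
  have hpK : ‖(p : K)‖ = (p : ℝ)⁻¹ := by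
    have h1 := hext (p : ℚ)
    rw [padicNorm.padicNorm_p_of_prime] at h1
    have h2 : (((p : ℚ) : ℚ) : K) = (p : K) := by simp
    rw [h2] at h1
    rw [h1]
    push_cast
    rfl
  have hl0 : l ≠ 0 := by
    rintro rfl
    rw [padicNorm.zero] at hl
    exact absurd hl (by norm_num)
  have hlK : (l : K) ≠ 0 := by exact_mod_cast hl0
  -- the exponent `h`
  obtain ⟨h, hh1, hlh⟩ : ∃ h : ℕ, 1 ≤ h ∧ padicNorm p l = (p : ℚ) ^ h := by
    have h1 := padicNorm.eq_zpow_of_nonzero (p := p) hl0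
    rw [h1] at hl
    have h2 : 0 < -padicValRat p l := by
      by_contra hneg
      have h3 : (p : ℚ) ^ (-padicValRat p l) ≤ 1 :=
        zpow_le_one_of_nonpos₀ (by exact_mod_cast hp.one_lt.le) (not_lt.1 hneg)
      exact absurd hl (not_lt.2 h3)
    refine ⟨(-padicValRat p l).toNat, by omega, ?_⟩
    rw [h1, ← zpow_natCast, Int.toNat_of_nonneg h2.le]
  have hlnorm : ‖(l : K)‖ = (((p : ℝ)⁻¹) ^ h)⁻¹ := by
    rw [hext l, hlh]
    push_cast
    rw [inv_pow, inv_inv]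
  have hpow : ∀ m : ℕ, 1 ≤ m → ((p : ℝ)⁻¹) ^ m ≤ (p : ℝ)⁻¹ := by
    intro m hm
    calc ((p : ℝ)⁻¹) ^ m ≤ ((p : ℝ)⁻¹) ^ 1 := pow_le_pow_of_le_one hw0.le hw1 hm
      _ = (p : ℝ)⁻¹ := pow_one _
  have hpadic1 : ∀ a : ℚ, ‖(a : K)‖ ≤ 1 → padicNorm p a ≤ 1 := by
    intro a ha
    rw [hext a] at ha
    exact_mod_cast ha
  -- the integer `c`
  have hul : ‖((u / l : ℚ) : K)‖ ≤ ((p : ℝ)⁻¹) ^ h := by
    push_cast
    rw [norm_div, hlnorm, div_inv_eq_mul]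
    exact mul_le_of_le_one_left (by positivity) hu1
  obtain ⟨c, hc⟩ := near_int p 2 (u / l) (hpadic1 _ (hul.trans ((hpow h hh1).trans hw1)))
  rw [← hext] at hc
  have hc' : ‖(u : K) / (l : K) - (c : K)‖ ≤ ((p : ℝ)⁻¹) ^ 2 := by
    have e : ((u / l - c : ℚ) : K) = (u : K) / (l : K) - (c : K) := by push_cast; rfl
    rw [← e]
    exact hc
  have hpc : (p : ℤ) ∣ c := by
    have h1 : ‖(c : K)‖ ≤ (p : ℝ)⁻¹ := by
      have e : (c : K) = ((u / l : ℚ) : K) - ((u : K) / (l : K) - (c : K)) := by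
        push_cast
        ring
      rw [e]
      exact sub_le (hul.trans (hpow h hh1)) (hc'.trans (hpow 2 (by norm_num)))
    have h2 := (padicNorm.dvd_iff_norm_le (p := p) (n := 1) (z := c)).2 (by
      have h3 := hext (c : ℚ)
      have e : (((c : ℤ) : ℚ) : K) = (c : K) := by push_cast; rfl
      rw [e] at h3
      rw [h3] at h1
      have h4 : ((padicNorm p (c : ℚ) : ℚ) : ℝ) ≤ (((p : ℚ)⁻¹ : ℚ) : ℝ) := by
        push_cast
        exact h1
      have h5 : padicNorm p (c : ℚ) ≤ (p : ℚ)⁻¹ := by exact_mod_cast h4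
      simpa using h5)
    simpa using h2
  -- the integer `ν`
  have hν0 : ‖((l⁻¹ / (p : ℚ) ^ h : ℚ) : K)‖ = 1 := by
    push_cast
    rw [norm_div, norm_inv, norm_pow, hlnorm, hpK, inv_inv]
    exact div_self (by positivity)
  obtain ⟨ν, hν⟩ := near_int p 1 (l⁻¹ / (p : ℚ) ^ h) (hpadic1 _ hν0.le)
  rw [← hext, pow_one] at hν
  have hpKne : (p : K) ≠ 0 := norm_pos_iff.1 (by rw [hpK]; exact hw0)
  have hν' : ‖(l : K)⁻¹ - (p : K) ^ h * (ν : K)‖ ≤ ((p : ℝ)⁻¹) ^ (h + 1) := by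
    have e : (l : K)⁻¹ - (p : K) ^ h * (ν : K) =
        (p : K) ^ h * ((l⁻¹ / (p : ℚ) ^ h - ν : ℚ) : K) := by
      push_cast
      field_simp
    rw [e, norm_mul, norm_pow, hpK, pow_succ]
    exact mul_le_mul_of_nonneg_left hν (by positivity)
  have hpν : ¬ (p : ℤ) ∣ ν := by
    intro hd
    have h2 := (padicNorm.dvd_iff_norm_le (p := p) (n := 1) (z := ν)).1 (by simpa using hd)
    have h1 : ‖(ν : K)‖ ≤ (p : ℝ)⁻¹ := by
      have h3 := hext (ν : ℚ)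
      have e : (((ν : ℤ) : ℚ) : K) = (ν : K) := by push_cast; rfl
      rw [e] at h3
      rw [h3]
      have h4 : padicNorm p (ν : ℚ) ≤ (p : ℚ)⁻¹ := by simpa using h2
      have h5 : ((padicNorm p (ν : ℚ) : ℚ) : ℝ) ≤ (((p : ℚ)⁻¹ : ℚ) : ℝ) := by exact_mod_cast h4
      push_cast at h5
      exact h5
    have h6 : ‖((l⁻¹ / (p : ℚ) ^ h : ℚ) : K)‖ ≤ (p : ℝ)⁻¹ := by
      have e : ((l⁻¹ / (p : ℚ) ^ h : ℚ) : K) = ((l⁻¹ / (p : ℚ) ^ h - ν : ℚ) : K) + (ν : K) := by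
        push_cast
        ring
      rw [e]
      exact add_le hν h1
    rw [hν0] at h6
    have h7 : (p : ℝ)⁻¹ < 1 := inv_lt_one_of_one_lt₀ hp1
    exact absurd h6 (not_le.2 h7)
  -- the Tate parameter
  have key : ∀ q : K, 0 < ‖q‖ → ‖q‖ < 1 → ∃ s : K, q⁻¹ = jv U q - s ∧ ‖s‖ ≤ 1 ∧
      ‖s - (u : K)‖ ≤ ‖q‖ ∧ ‖q‖ = ‖jv U q‖⁻¹ := by
    intro q h0 h1
    obtain ⟨h2, h3⟩ := hq q h0 h1
    refine ⟨jv U q - q⁻¹, by ring, ?_, ?_, ?_⟩
    · have e : jv U q - q⁻¹ = (u : K) - (q⁻¹ - (jv U q - (u : K))) := by ring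
      rw [e]
      exact sub_le hu1 (h3.trans h1.le)
    · have e : jv U q - q⁻¹ - (u : K) = -(q⁻¹ - (jv U q - (u : K))) := by ring
      rw [e, norm_neg]
      exact h3
    · rw [h2, inv_inv]
  have hwh : 0 < ((p : ℝ)⁻¹) ^ h := by positivity
  have hwh1 : ((p : ℝ)⁻¹) ^ h ≤ (p : ℝ)⁻¹ := hpow h hh1
  refine ⟨h, c, ν, hh1, hpc, hpν, ?_, ?_, ?_⟩
  · intro f g q hf hg hq0 hq1 hjv
    obtain ⟨s, hs, hs1, hsu, hqn⟩ := key q hq0 hq1
    have hgne : g ≠ 0 := norm_pos_iff.1 (by rw [hg]; exact one_pos)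
    have hfne : f ≠ 0 := norm_pos_iff.1 (by rw [hf]; exact one_pos)
    have hqne : q ≠ 0 := norm_pos_iff.1 hq0
    have hqh : ‖q‖ = ((p : ℝ)⁻¹) ^ h := by
      rw [hqn, hjv, norm_div, norm_mul, hf, hg, mul_one, div_one, hlnorm, inv_inv]
    rw [hjv] at hs
    refine ⟨hqh, ?_, ?_⟩
    · have e : ((l : K) * q)⁻¹ * g - (f - (c : K) * g) =
          g * (-((u : K) / (l : K) - (c : K)) - (s - (u : K)) / (l : K)) := by
        rw [mul_inv, hs]
        field_simp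
        ring
      rw [e, norm_mul, hg, one_mul]
      refine sub_le (by rw [norm_neg]; exact hc') ?_
      rw [norm_div, hlnorm, div_inv_eq_mul]
      calc ‖s - (u : K)‖ * ((p : ℝ)⁻¹) ^ h ≤ ((p : ℝ)⁻¹) * ((p : ℝ)⁻¹) :=
            mul_le_mul (hsu.trans (hqh.le.trans hwh1)) hwh1 hwh.le hw0.le
        _ = ((p : ℝ)⁻¹) ^ 2 := by ring
    · have e1 : q * ((l : K) * f) = g + q * g * s := by
        have h1 : q * q⁻¹ = 1 := mul_inv_cancel₀ hqne
        rw [hs] at h1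
        field_simp at h1
        linear_combination h1
      have e : q * f - (p : K) ^ h * ((ν : K) * g) =
          g * ((l : K)⁻¹ - (p : K) ^ h * (ν : K)) + q * g * s * (l : K)⁻¹ := by
        field_simp
        linear_combination e1
      rw [e]
      refine add_le (by rw [norm_mul, hg, one_mul]; exact hν') ?_
      rw [norm_mul, norm_mul, norm_mul, hg, norm_inv, hlnorm, inv_inv, hqh, mul_one, pow_succ]
      calc ((p : ℝ)⁻¹) ^ h * ‖s‖ * ((p : ℝ)⁻¹) ^ h ≤ ((p : ℝ)⁻¹) ^ h * 1 * (p : ℝ)⁻¹ := by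
            gcongr
        _ = ((p : ℝ)⁻¹) ^ h * (p : ℝ)⁻¹ := by ring
  · intro f g f' g' q q' hf hg hf' hg' hq0 hq1 hq'0 hq'1 hjv hjv'
    obtain ⟨s, hs, hs1, -, hqn⟩ := key q hq0 hq1
    obtain ⟨s', hs', hs'1, -, hqn'⟩ := key q' hq'0 hq'1
    have hgne : g ≠ 0 := norm_pos_iff.1 (by rw [hg]; exact one_pos)
    have hg'ne : g' ≠ 0 := norm_pos_iff.1 (by rw [hg']; exact one_pos)
    have hfne : f ≠ 0 := norm_pos_iff.1 (by rw [hf]; exact one_pos)
    have hqne : q ≠ 0 := norm_pos_iff.1 hq0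
    have hq'ne : q' ≠ 0 := norm_pos_iff.1 hq'0
    have hqh : ‖q‖ = ((p : ℝ)⁻¹) ^ h := by
      rw [hqn, hjv, norm_div, norm_mul, hf, hg, mul_one, div_one, hlnorm, inv_inv]
    have hq'h : ‖q'‖⁻¹ = (((p : ℝ)⁻¹) ^ h)⁻¹ * ‖f'‖ := by
      rw [hqn', hjv', inv_inv, norm_div, norm_mul, hg', div_one, hlnorm]
    rw [hjv] at hs
    rw [hjv'] at hs'
    constructor
    · rw [norm_div, div_eq_mul_inv, hq'h, hqh, ← mul_assoc, mul_inv_cancel₀ hwh.ne', one_mul]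
      exact hf'
    · have e1 : q * ((l : K) * f) = g + q * g * s := by
        have h1 : q * q⁻¹ = 1 := mul_inv_cancel₀ hqne
        rw [hs] at h1
        field_simp at h1
        linear_combination h1
      have e : q / q' * (g' * f) - f' * g = q * (g * s * f' - f * s' * g') := by
        rw [div_eq_mul_inv, hs']
        field_simp
        linear_combination f' * e1
      rw [e, norm_mul]
      have h2 : ‖g * s * f' - f * s' * g'‖ ≤ 1 := by
        refine sub_le ?_ ?_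
        · rw [norm_mul, norm_mul, hg, one_mul]
          exact mul_le_one₀ hs1 (norm_nonneg _) hf'.le
        · rw [norm_mul, norm_mul, hf, hg', one_mul, mul_one]
          exact hs'1
      calc ‖q‖ * ‖g * s * f' - f * s' * g'‖ ≤ (p : ℝ)⁻¹ * 1 :=
            mul_le_mul (hqh.le.trans hwh1) h2 (norm_nonneg _) hw0.le
        _ = (p : ℝ)⁻¹ := mul_one _
  · intro f g f' g' q q' hf hg hf' hg' hq0 hq1 hq'0 hq'1 hjv hjv'
    obtain ⟨s, hs, hs1, -, hqn⟩ := key q hq0 hq1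
    obtain ⟨s', hs', hs'1, -, hqn'⟩ := key q' hq'0 hq'1
    have hgne : g ≠ 0 := norm_pos_iff.1 (by rw [hg]; exact one_pos)
    have hf'ne : f' ≠ 0 := norm_pos_iff.1 (by rw [hf']; exact one_pos)
    have hfne : f ≠ 0 := norm_pos_iff.1 (by rw [hf]; exact one_pos)
    have hqne : q ≠ 0 := norm_pos_iff.1 hq0
    have hq'ne : q' ≠ 0 := norm_pos_iff.1 hq'0
    have hg'ne : g' ≠ 0 := by
      rintro rfl
      rw [hjv', div_zero, norm_zero, inv_zero] at hqn'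
      exact absurd hqn' hq'0.ne'
    have hqh : ‖q‖ = ((p : ℝ)⁻¹) ^ h := by
      rw [hqn, hjv, norm_div, norm_mul, hf, hg, mul_one, div_one, hlnorm, inv_inv]
    have hq'h : ‖q'‖ = ‖g'‖ * ((p : ℝ)⁻¹) ^ h := by
      rw [hqn', hjv', norm_div, norm_mul, hf', mul_one, hlnorm, inv_div, div_inv_eq_mul]
    have hq'w : ‖q'‖ ≤ (p : ℝ)⁻¹ := by
      rw [hq'h]
      exact (mul_le_of_le_one_left hwh.le hg'.le).trans hwh1
    rw [hjv] at hs
    rw [hjv'] at hs'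
    constructor
    · rw [norm_div, hq'h, hqh, mul_div_assoc, div_self hwh.ne', mul_one]
      exact hg'
    · have e1 : q' * ((l : K) * f') = g' + q' * g' * s' := by
        have h1 : q' * q'⁻¹ = 1 := mul_inv_cancel₀ hq'ne
        rw [hs'] at h1
        field_simp at h1
        linear_combination h1
      have e : q' / q * (f' * g) - g' * f = q' * (f * g' * s' - f' * s * g) := by
        rw [div_eq_mul_inv, hs]
        field_simp
        linear_combination f * e1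
      rw [e, norm_mul]
      have h2 : ‖f * g' * s' - f' * s * g‖ ≤ 1 := by
        refine sub_le ?_ ?_
        · rw [norm_mul, norm_mul, hf, one_mul]
          exact mul_le_one₀ hg'.le (norm_nonneg _) hs'1
        · rw [norm_mul, norm_mul, hf', hg, one_mul, mul_one]
          exact hs1
      calc ‖q'‖ * ‖f * g' * s' - f' * s * g‖ ≤ (p : ℝ)⁻¹ * 1 :=
            mul_le_mul hq'w h2 (norm_nonneg _) hw0.le
        _ = (p : ℝ)⁻¹ := mul_one _

end Pool.Agent.ZPU.H81
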